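import Pool.Agent.Y201.LI.Stm

/-! # LI-IRR: a generic line meets an irreducible hypersurface in one closed point of degree d -/

set_option autoImplicit false

namespace Pool.Agent.Y761.LI

open MvPolynomial IntermediateField Module

noncomputable section

theorem prime_rename {σ τ : Type} (f : σ → τ) (hf : Function.Injective f) {p : MvPolynomial σ ℂ}
    (hp : Prime p) : Prime (rename f p) := by
  have h1 : rename f p = rename ((↑) : Set.range f → τ)
      (renameEquiv ℂ (Equiv.ofInjective f hf) p) := by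
    rw [renameEquiv_apply, rename_rename]
    rfl
  rw [h1, prime_rename_iff]
  exact (MulEquiv.prime_iff (renameEquiv ℂ (Equiv.ofInjective f hf)).toMulEquiv).2 hp

/-- degree and leading coefficient of a form along a line -/
theorem hom_deg {A : Type} [CommRing A] [Algebra ℂ A] {r d : ℕ} {F : MvPolynomial (Fin r) ℂ}
    (hF : F.IsHomogeneous d) (a b : Fin r → A) :
    (aeval (fun i => Polynomial.C (a i) + Polynomial.C (b i) * Polynomial.X) F).natDegree ≤ d ∧
    (aeval (fun i => Polynomial.C (a i) + Polynomial.C (b i) * Polynomial.X) F).coeff d =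
      aeval b F := by
  classical
  set f : Fin r → Polynomial A := fun i => Polynomial.C (a i) + Polynomial.C (b i) * Polynomial.X
    with hf
  have hf1 : ∀ i, (f i).natDegree ≤ 1 := fun i => by
    simp only [hf]
    refine (Polynomial.natDegree_add_le _ _).trans (max_le ?_ ?_)
    · simp
    · have := Polynomial.natDegree_C_mul_X_pow_le (b i) 1
      rwa [pow_one] at this
  have hf2 : ∀ i, (f i).coeff 1 = b i := fun i => by
    simp only [hf]
    simp [Polynomial.coeff_C]
  have key : ∀ (s : Fin r →₀ ℕ) (t : Finset (Fin r)),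
      (∏ i ∈ t, f i ^ s i).natDegree ≤ ∑ i ∈ t, s i ∧
      (∏ i ∈ t, f i ^ s i).coeff (∑ i ∈ t, s i) = ∏ i ∈ t, b i ^ s i := by
    intro s t
    induction t using Finset.induction_on with
    | empty => simp
    | insert i t hi ih =>
      rw [Finset.prod_insert hi, Finset.sum_insert hi, Finset.prod_insert hi]
      have h1 : (f i ^ s i).natDegree ≤ s i := by
        refine Polynomial.natDegree_pow_le.trans ?_
        calc s i * (f i).natDegree ≤ s i * 1 := Nat.mul_le_mul_left _ (hf1 i)
          _ = s i := mul_one _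
      have h2 : (f i ^ s i).coeff (s i) = b i ^ s i := by
        have := Polynomial.coeff_pow_of_natDegree_le (m := s i) (hf1 i)
        rw [mul_one, hf2] at this
        exact this
      constructor
      · exact Polynomial.natDegree_mul_le.trans (add_le_add h1 ih.1)
      · rw [Polynomial.coeff_mul_add_eq_of_natDegree_le h1 ih.1, h2, ih.2]
  have hsum : ∀ s ∈ F.support, ∑ i, s i = d := by
    intro s hs
    have h1 := hF (mem_support_iff.1 hs)
    rw [← h1, Finsupp.weight_apply, Finsupp.sum_fintype]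
    · simp
    · simp
  have hF1 : aeval f F = ∑ s ∈ F.support, Polynomial.C (algebraMap ℂ A (coeff s F)) *
      ∏ i, f i ^ s i := by
    rw [aeval_def, eval₂_eq']
    rfl
  have hF2 : aeval b F = ∑ s ∈ F.support, algebraMap ℂ A (coeff s F) * ∏ i, b i ^ s i := by
    rw [aeval_def, eval₂_eq']
  rw [hF1, hF2]
  constructor
  · refine Polynomial.natDegree_sum_le_of_forall_le _ _ fun s hs => ?_
    refine (Polynomial.natDegree_C_mul_le _ _).trans ?_
    rw [← hsum s hs]
    exact (key s Finset.univ).1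
  · rw [Polynomial.finsetSum_coeff]
    refine Finset.sum_congr rfl fun s hs => ?_
    rw [Polynomial.coeff_C_mul]
    congr 1
    have := (key s Finset.univ).2
    rw [hsum s hs] at this
    exact this

/-- the index type of the generic line -/
abbrev Ix (r : ℕ) : Type := (Fin r ⊕ Fin r) ⊕ (Fin r ⊕ Fin 1)

/-- translation of the generic point along the line -/
def sh (r : ℕ) (c : ℂ) : Option (Ix r) → MvPolynomial (Option (Ix r)) ℂ
  | some (Sum.inr (Sum.inl i)) => X (some (Sum.inr (Sum.inl i))) +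
      C c * (X none * X (some (Sum.inl (Sum.inl i))) +
        X (some (Sum.inr (Sum.inr 0))) * X (some (Sum.inl (Sum.inr i))))
  | o => X o

theorem sh_comp (r : ℕ) (c : ℂ) :
    (aeval (sh r c)).comp (aeval (sh r (-c))) = AlgHom.id ℂ (MvPolynomial (Option (Ix r)) ℂ) := by
  refine algHom_ext fun o => ?_
  rcases o with _ | ((i | i) | (i | i))
  · simp [sh]
  · simp [sh]
  · simp [sh]
  · simp only [AlgHom.comp_apply, aeval_X, sh, map_add, map_mul, AlgHom.id_apply]
    simp only [algHom_C, map_neg, algebraMap_eq]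
    ring
  · simp [sh]

/-- the translation as an automorphism -/
def shE (r : ℕ) : MvPolynomial (Option (Ix r)) ℂ ≃ₐ[ℂ] MvPolynomial (Option (Ix r)) ℂ :=
  AlgEquiv.ofAlgHom (aeval (sh r (-1))) (aeval (sh r 1))
    (by have := sh_comp r (-1); rw [neg_neg] at this; exact this) (sh_comp r 1)

/-- the equation of the intersection with the generic line -/
def gg {r : ℕ} (F : MvPolynomial (Fin r) ℂ) : Polynomial (MvPolynomial (Ix r) ℂ) :=
  aeval (fun i => Polynomial.C (X (Sum.inr (Sum.inl i)) -
      X (Sum.inr (Sum.inr 0)) * X (Sum.inl (Sum.inr i))) +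
    Polynomial.C (-X (Sum.inl (Sum.inl i))) * Polynomial.X) F

theorem gg_eq {r : ℕ} (F : MvPolynomial (Fin r) ℂ) :
    gg F = optionEquivLeft ℂ (Ix r)
      (shE r (rename (fun i => some (Sum.inr (Sum.inl i)) : Fin r → Option (Ix r)) F)) := by
  have h : (aeval (fun i => Polynomial.C (X (Sum.inr (Sum.inl i)) -
      X (Sum.inr (Sum.inr 0)) * X (Sum.inl (Sum.inr i))) +
    Polynomial.C (-X (Sum.inl (Sum.inl i))) * Polynomial.X) :
      MvPolynomial (Fin r) ℂ →ₐ[ℂ] Polynomial (MvPolynomial (Ix r) ℂ)) =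
      ((optionEquivLeft ℂ (Ix r)).toAlgHom.comp (shE r).toAlgHom).comp
        (rename (fun i => some (Sum.inr (Sum.inl i)) : Fin r → Option (Ix r))) := by
    refine algHom_ext fun i => ?_
    have h1 : shE r (X (some (Sum.inr (Sum.inl i)))) = sh r (-1) (some (Sum.inr (Sum.inl i))) := by
      show aeval (sh r (-1)) (X (some (Sum.inr (Sum.inl i)))) = _
      rw [aeval_X]
    simp only [aeval_X, AlgHom.comp_apply, rename_X]
    show _ = optionEquivLeft ℂ (Ix r) (shE r (X (some (Sum.inr (Sum.inl i)))))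
    rw [h1]
    simp only [sh, map_add, map_mul, map_sub, map_neg, optionEquivLeft_X_some,
      optionEquivLeft_X_none, map_one]
    ring
  exact DFunLike.congr_fun h F

theorem gg_irr {r : ℕ} {F : MvPolynomial (Fin r) ℂ} (hF : Irreducible F) : Irreducible (gg F) := by
  have h1 : Prime F := UniqueFactorizationMonoid.irreducible_iff_prime.1 hF
  have h2 : Prime (rename (fun i => some (Sum.inr (Sum.inl i)) : Fin r → Option (Ix r)) F) :=
    prime_rename _ (fun i j hij => by simpa using hij) h1
  rw [gg_eq]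
  exact (MulEquiv.irreducible_iff (optionEquivLeft ℂ (Ix r)).toMulEquiv).2
    ((MulEquiv.irreducible_iff (shE r).toMulEquiv).2 h2.irreducible)

theorem gg_deg {r d : ℕ} {F : MvPolynomial (Fin r) ℂ} (hF : F.IsHomogeneous d) (hF0 : F ≠ 0) :
    (gg F).natDegree = d := by
  obtain ⟨h1, h2⟩ := hom_deg hF
    (fun i => (X (Sum.inr (Sum.inl i)) -
      X (Sum.inr (Sum.inr 0)) * X (Sum.inl (Sum.inr i)) : MvPolynomial (Ix r) ℂ))
    (fun i => -X (Sum.inl (Sum.inl i)))
  refine Polynomial.natDegree_eq_of_le_of_coeff_ne_zero h1 ?_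
  intro h3
  apply hF0
  have h4 : aeval (fun i => (-X (Sum.inl (Sum.inl i)) : MvPolynomial (Ix r) ℂ)) F = 0 :=
    h2.symm.trans h3
  let τ : MvPolynomial (Ix r) ℂ →ₐ[ℂ] MvPolynomial (Fin r) ℂ :=
    aeval (fun o : Ix r => match o with
      | Sum.inl (Sum.inl i) => -X i
      | _ => 0)
  have h5 : (τ.comp (aeval (fun i => (-X (Sum.inl (Sum.inl i)) : MvPolynomial (Ix r) ℂ)))) =
      AlgHom.id ℂ (MvPolynomial (Fin r) ℂ) := by
    refine algHom_ext fun i => ?_
    simp [τ]
  have h6 := DFunLike.congr_fun h5 F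
  rw [AlgHom.comp_apply, h4, map_zero] at h6
  exact h6.symm

/-- the degree of the intersection point over the field generated by a family -/
theorem main_deg {r d : ℕ} {F : MvPolynomial (Fin r) ℂ} (hF : F.IsHomogeneous d) (hd : 1 ≤ d)
    (hirr : Irreducible F) (Ω : Type) [Field Ω] [Algebra ℂ Ω] (x : Ix r → Ω) (β₁ : Ω)
    (hx : AlgebraicIndependent ℂ x)
    (h0 : aeval (fun i => x (Sum.inr (Sum.inl i)) - β₁ * x (Sum.inl (Sum.inl i)) -
      x (Sum.inr (Sum.inr 0)) * x (Sum.inl (Sum.inr i))) F = 0) :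
    finrank (adjoin ℂ (Set.range x)) (adjoin (adjoin ℂ (Set.range x)) {β₁}) = d := by
  classical
  have hg1 := gg_irr hirr
  have hg2 := gg_deg hF hirr.ne_zero
  have hprim : (gg F).IsPrimitive := hg1.isPrimitive (by omega)
  have hg3 : Irreducible ((gg F).map (algebraMap (MvPolynomial (Ix r) ℂ)
      (FractionRing (MvPolynomial (Ix r) ℂ)))) :=
    (hprim.irreducible_iff_irreducible_map_fraction_map).1 hg1
  set e := hx.aevalEquivField with he
  set p : Polynomial (adjoin ℂ (Set.range x)) := ((gg F).map (algebraMap (MvPolynomial (Ix r) ℂ)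
      (FractionRing (MvPolynomial (Ix r) ℂ)))).map (e : _ →+* adjoin ℂ (Set.range x)) with hp
  have hp1 : Irreducible p :=
    (MulEquiv.irreducible_iff (Polynomial.mapEquiv e.toRingEquiv).toMulEquiv).2 hg3
  have hp2 : p.natDegree = d := by
    rw [hp, Polynomial.natDegree_map_eq_of_injective e.injective,
      Polynomial.natDegree_map_eq_of_injective (IsFractionRing.injective _ _), hg2]
  have hring : (algebraMap (adjoin ℂ (Set.range x)) Ω).comp
      ((e : _ →+* adjoin ℂ (Set.range x)).comp (algebraMap (MvPolynomial (Ix r) ℂ)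
      (FractionRing (MvPolynomial (Ix r) ℂ)))) = (aeval x : MvPolynomial (Ix r) ℂ →ₐ[ℂ] Ω) := by
    refine RingHom.ext fun a => ?_
    exact hx.aevalEquivField_algebraMap_apply_coe a
  have hp3 : Polynomial.aeval β₁ p = 0 := by
    rw [hp, Polynomial.map_map, Polynomial.aeval_def, Polynomial.eval₂_map, hring, gg]
    have h7 := map_aeval (R := ℂ) (fun i => Polynomial.C (X (Sum.inr (Sum.inl i)) -
      X (Sum.inr (Sum.inr 0)) * X (Sum.inl (Sum.inr i))) +
      Polynomial.C (-X (Sum.inl (Sum.inl i))) * Polynomial.X)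
      (Polynomial.eval₂RingHom ((aeval x : MvPolynomial (Ix r) ℂ →ₐ[ℂ] Ω) :
        MvPolynomial (Ix r) ℂ →+* Ω) β₁) F
    rw [Polynomial.coe_eval₂RingHom] at h7
    rw [h7, ← h0, aeval_def, coe_eval₂Hom]
    have h8 : (Polynomial.eval₂RingHom ((aeval x : MvPolynomial (Ix r) ℂ →ₐ[ℂ] Ω) :
        MvPolynomial (Ix r) ℂ →+* Ω) β₁).comp (algebraMap ℂ (Polynomial (MvPolynomial (Ix r) ℂ))) =
        algebraMap ℂ Ω := by
      refine RingHom.ext fun c => ?_
      have h9 : algebraMap ℂ (Polynomial (MvPolynomial (Ix r) ℂ)) c =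
          Polynomial.C (algebraMap ℂ (MvPolynomial (Ix r) ℂ) c) := rfl
      rw [RingHom.comp_apply, h9, Polynomial.coe_eval₂RingHom, Polynomial.eval₂_C]
      exact (aeval x : MvPolynomial (Ix r) ℂ →ₐ[ℂ] Ω).commutes c
    rw [h8]
    refine congrArg (fun y => eval₂ (algebraMap ℂ Ω) y F) (funext fun i => ?_)
    rw [Polynomial.eval₂_add, Polynomial.eval₂_mul, Polynomial.eval₂_C, Polynomial.eval₂_C,
      Polynomial.eval₂_X]
    simp only [RingHom.coe_coe, map_sub, map_mul, map_neg, aeval_X]
    ring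
  have hmin := minpoly.eq_of_irreducible hp1 hp3
  have hint : IsIntegral (adjoin ℂ (Set.range x)) β₁ := by
    rw [← isAlgebraic_iff_isIntegral]
    exact ⟨p, hp1.ne_zero, hp3⟩
  rw [IntermediateField.adjoin.finrank hint, ← hmin,
    Polynomial.natDegree_mul_C (inv_ne_zero (Polynomial.leadingCoeff_ne_zero.2 hp1.ne_zero)), hp2]

/-- LI-IRR -/
theorem irr : Pool.Agent.Y201.LI.S_IRR := by
  intro r d F hF hd hirr Ω _ _ v₁ v₂ v₃ β₁ β₂ hx h0
  have hset : Set.range v₁ ∪ Set.range v₂ ∪ Set.range v₃ ∪ {β₂} =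
      Set.range (Sum.elim (Sum.elim v₁ v₂) (Sum.elim v₃ ![β₂])) := by
    rw [Set.Sum.elim_range, Set.Sum.elim_range, Set.Sum.elim_range, Matrix.range_cons,
      Matrix.range_empty, Set.union_empty, ← Set.union_assoc]
  rw [hset]
  refine main_deg hF hd hirr Ω _ β₁ hx ?_
  rw [← h0]
  rfl

end

end Pool.Agent.Y761.LI
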